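import Mathlib

namespace Pool.Agent.Results.MP_965ec6_al.TwoCycles

/-- An invertible `p`-letter `q`-state Mealy automaton. -/
structure Mealy (p q : ℕ) where
  δ : Fin p → Fin q → Fin q
  ρ : Fin q → Equiv.Perm (Fin p)

/-- Action of a state on words. -/
def act {p q : ℕ} (M : Mealy p q) : Fin q → List (Fin p) → List (Fin p)
  | _, [] => []
  | x, i :: w => M.ρ x i :: act M (M.δ i x) w

/-- Bireversibility. -/
def Birev {p q : ℕ} (M : Mealy p q) : Prop :=
  (∀ i, Function.Bijective (M.δ i)) ∧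
    ∀ j, Function.Bijective (fun x => M.δ ((M.ρ x).symm j) x)

/-- The group generated by the automaton. -/
def grp {p q : ℕ} (M : Mealy p q) : Subgroup (Equiv.Perm (List (Fin p))) :=
  Subgroup.closure {g | ∃ x, ⇑g = act M x}

abbrev S3 := Equiv.Perm (Fin 3)

def wf : (ℕ → S3) → List (Fin 3) → List (Fin 3)
  | _, [] => []
  | f, a :: w => f 0 a :: wf (fun n => f (n + 1)) w

theorem wf_mul (w : List (Fin 3)) : ∀ f g : ℕ → S3, wf (f * g) w = wf f (wf g w) := by
  induction w with
  | nil => intro f g; rfl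
  | cons a w ih => intro f g; exact congrArg _ (ih (fun n => f (n + 1)) (fun n => g (n + 1)))

theorem wf_one (w : List (Fin 3)) : wf 1 w = w := by
  induction w with
  | nil => rfl
  | cons a w ih => exact congrArg _ ih

theorem wf_get (w : List (Fin 3)) : ∀ (f : ℕ → S3) (n : ℕ), (wf f w)[n]? = (w[n]?).map (f n) := by
  induction w with
  | nil => intro f n; simp [wf]
  | cons a w ih => intro f n; cases n <;> simp [wf, ih]

def W : (ℕ → S3) →* Equiv.Perm (List (Fin 3)) where
  toFun f := ⟨wf f, wf f⁻¹, fun w => by rw [← wf_mul, inv_mul_cancel, wf_one],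
    fun w => by rw [← wf_mul, mul_inv_cancel, wf_one]⟩
  map_one' := Equiv.ext wf_one
  map_mul' f g := Equiv.ext fun w => wf_mul w f g

def P : (ZMod 12 → S3) →* (ℕ → S3) where
  toFun f := fun n => f n
  map_one' := rfl
  map_mul' _ _ := rfl

theorem inj : Function.Injective (W.comp P) := by
  intro f g h
  ext k a
  have h1 := congrArg (fun e : Equiv.Perm (List (Fin 3)) =>
    (e (List.replicate (k.val + 1) a))[k.val]?) h
  simp only [MonoidHom.comp_apply, W, P, MonoidHom.coe_mk, OneHom.coe_mk, Equiv.coe_fn_mk,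
    wf_get] at h1
  simpa [Fin.ext_iff] using h1

def d : Fin 7 → Fin 7 := ![1, 2, 0, 4, 5, 6, 3]
def r : Fin 7 → S3 := ![Equiv.swap 0 1, 1, 1, Equiv.swap 1 2, 1, 1, 1]
def M : Mealy 3 7 := ⟨fun _ => d, r⟩
def g (x : Fin 7) : ZMod 12 → S3 := fun k => r (d^[k.val] x)

theorem act_eq (w : List (Fin 3)) : ∀ x, act M x w = wf (fun n => r (d^[n] x)) w := by
  induction w with
  | nil => intro x; rfl
  | cons a w ih => intro x; exact congrArg _ (ih (d x))

theorem act_g (x : Fin 7) : ⇑((W.comp P) (g x)) = act M x := by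
  ext1 w
  rw [act_eq]
  have : P (g x) = fun n => r (d^[n] x) := by
    ext1 n
    have hp : Function.IsPeriodicPt d 12 x := by revert x; decide
    show r (d^[(n : ZMod 12).val] x) = _
    rw [ZMod.val_natCast, hp.iterate_mod_apply]
  show wf (P (g x)) w = _
  rw [this]

theorem grp_eq : grp M = (Subgroup.closure (Set.range g)).map (W.comp P) := by
  rw [MonoidHom.map_closure, grp]
  congr 1
  ext e
  constructor
  · rintro ⟨x, hx⟩
    exact ⟨g x, ⟨x, rfl⟩, DFunLike.coe_injective ((act_g x).trans hx.symm)⟩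
  · rintro ⟨_, ⟨x, rfl⟩, rfl⟩
    exact ⟨x, act_g x⟩

def c : S3 := Equiv.swap 0 1 * Equiv.swap 1 2 * Equiv.swap 0 1 * Equiv.swap 1 2

theorem single (j : ZMod 12) : ∃ x y, g x * g y * g x * g y = Pi.mulSingle j c := by
  revert j; decide +kernel

theorem result : ∃ (p q : ℕ) (M : Mealy p q), 1 ≤ p ∧ 1 ≤ q ∧ Birev M ∧ Finite (grp M) ∧
    p.factorial ^ q < Nat.card (grp M) := by
  have hd : Function.Bijective d := by decide
  set H := Subgroup.closure (Set.range g) with hH
  have e := Subgroup.equivMapOfInjective H _ inj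
  refine ⟨3, 7, M, by norm_num, by norm_num, ⟨fun _ => hd, fun _ => hd⟩, ?_, ?_⟩
  · rw [grp_eq]; exact Finite.of_equiv _ e.toEquiv
  · rw [grp_eq, ← Nat.card_congr e.toEquiv]
    have hm : ∀ f : ZMod 12 → Fin 3, (fun j => c ^ (f j).val) ∈ H := fun f => by
      refine Subgroup.pi_mem_of_mulSingle_mem _ fun j => ?_
      obtain ⟨x, y, h⟩ := single j
      have hx : g x ∈ H := Subgroup.subset_closure ⟨x, rfl⟩
      have hy : g y ∈ H := Subgroup.subset_closure ⟨y, rfl⟩
      rw [Pi.mulSingle_pow, ← h]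
      exact pow_mem (mul_mem (mul_mem (mul_mem hx hy) hx) hy) _
    have hc : ∀ a b : Fin 3, c ^ a.val = c ^ b.val → a = b := by decide
    have := Nat.card_le_card_of_injective (fun f : ZMod 12 → Fin 3 => (⟨_, hm f⟩ : H))
      fun f f' h => funext fun j => hc _ _ (congrFun (congrArg Subtype.val h) j)
    simp only [Nat.card_eq_fintype_card (α := ZMod 12 → Fin 3), Fintype.card_fun,
      Fintype.card_fin, ZMod.card] at this
    refine lt_of_lt_of_le (by norm_num [Nat.factorial]) this

end Pool.Agent.Results.MP_965ec6_al.TwoCycles
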